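import Pool.Agent.PFB.StmtsG

set_option autoImplicit false

open Matrix Filter Topology

namespace Pool.Agent.PFB.H87

open Pool.Agent.PFS

theorem ctr : CtrStmt := by
  intro d F hF L ψ b hL hb hβ hψ hlim
  set β := ψ b with hβdef
  have hψc : Continuous (fun x : V d => ψ x) := ψ.continuous_of_finiteDimensional
  have hLc : ∀ m, Continuous (fun x : V d => L m x) := fun m =>
    (L m).continuous_of_finiteDimensional
  -- the norm of ψ
  obtain ⟨P, hP0, hP⟩ : ∃ P : ℝ, 0 ≤ P ∧ ∀ x : V d, |ψ x| ≤ P * ‖x‖ := by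
    refine ⟨‖LinearMap.toContinuousLinearMap ψ‖, norm_nonneg _, fun x => ?_⟩
    exact (LinearMap.toContinuousLinearMap ψ).le_opNorm x
  -- the error maps
  let E : ℕ → V d → V d := fun m x => L m x - ψ x • b
  let ε : ℕ → ℝ := fun m => ∑ i : Fin d, ‖E m (Pi.single i (1 : ℝ))‖
  have hε0 : ∀ m, 0 ≤ ε m := fun m => Finset.sum_nonneg fun i _ => norm_nonneg _
  have hEε : ∀ m (x : V d), ‖E m x‖ ≤ ε m * ‖x‖ := by
    intro m x
    have hx : x = ∑ i, x i • (Pi.single i (1 : ℝ) : V d) := by
      ext j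
      simp [Finset.sum_apply, Pi.single_apply]
    have h1 : E m x = ∑ i, x i • E m (Pi.single i (1 : ℝ)) := by
      change L m x - ψ x • b = _
      conv_lhs => rw [hx]
      rw [map_sum, map_sum, Finset.sum_smul, ← Finset.sum_sub_distrib]
      refine Finset.sum_congr rfl fun i _ => ?_
      change _ = x i • (L m (Pi.single i (1 : ℝ)) - ψ (Pi.single i (1 : ℝ)) • b)
      rw [map_smul, map_smul, smul_sub, smul_eq_mul, mul_smul]
    rw [h1]
    calc ‖∑ i, x i • E m (Pi.single i (1 : ℝ))‖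
        ≤ ∑ i, ‖x i • E m (Pi.single i (1 : ℝ))‖ := norm_sum_le _ _
      _ ≤ ∑ i, ‖E m (Pi.single i (1 : ℝ))‖ * ‖x‖ := by
          refine Finset.sum_le_sum fun i _ => ?_
          rw [norm_smul, mul_comm]
          exact mul_le_mul_of_nonneg_left (norm_le_pi_norm x i) (norm_nonneg _)
      _ = ε m * ‖x‖ := by rw [← Finset.sum_mul]
  have hεlim : Tendsto ε atTop (𝓝 0) := by
    have h1 : ∀ i : Fin d, Tendsto (fun m => ‖E m (Pi.single i (1 : ℝ))‖) atTop (𝓝 0) := by
      intro i
      have h2 : Tendsto (fun m => L m (Pi.single i (1 : ℝ)) - ψ (Pi.single i (1 : ℝ)) • b) atTop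
          (𝓝 (ψ (Pi.single i (1 : ℝ)) • b - ψ (Pi.single i (1 : ℝ)) • b)) :=
        (hlim _).sub tendsto_const_nhds
      rw [sub_self] at h2
      have h3 := h2.norm
      rwa [norm_zero] at h3
    have h2 := tendsto_finsetSum (Finset.univ : Finset (Fin d)) fun i _ => h1 i
    simpa using h2
  -- linearity of E in differences
  have hEsub : ∀ m (x y : V d), E m x - E m y = E m (x - y) := by
    intro m x y
    change (L m x - ψ x • b) - (L m y - ψ y • b) = L m (x - y) - ψ (x - y) • b
    rw [map_sub, map_sub, sub_smul]; abel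
  set R := ‖b‖ + 1 with hR
  have hR1 : 0 < R := by have := norm_nonneg b; rw [hR]; linarith
  -- constants
  set C1 := (2 / β ^ 2) * ((β + P * ‖b‖) * R) with hC1
  set C2 := β * ((4 / β ^ 4) * (β * P * ‖b‖ + β ^ 2 + 2 * P * R)) with hC2
  have hnb := norm_nonneg b
  have hC10 : 0 ≤ C1 := by rw [hC1]; positivity
  have hC20 : 0 ≤ C2 := by rw [hC2]; positivity
  have hgood : ∀ᶠ m in atTop, ε m ≤ 1 ∧ P * (ε m * R) ≤ β ^ 2 / 2 ∧ C1 * ε m ≤ 1 ∧
      C2 * ε m ≤ 1 / 2 := by
    have h1 : ∀ᶠ m in atTop, ε m ≤ 1 := hεlim.eventually_le_const one_pos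
    have h2 : ∀ᶠ m in atTop, P * (ε m * R) ≤ β ^ 2 / 2 := by
      have : Tendsto (fun m => P * (ε m * R)) atTop (𝓝 (P * (0 * R))) :=
        (hεlim.mul_const R).const_mul P
      rw [zero_mul, mul_zero] at this
      exact this.eventually_le_const (by positivity)
    have h3 : ∀ᶠ m in atTop, C1 * ε m ≤ 1 := by
      have : Tendsto (fun m => C1 * ε m) atTop (𝓝 (C1 * 0)) := hεlim.const_mul C1
      rw [mul_zero] at this
      exact this.eventually_le_const one_pos
    have h4 : ∀ᶠ m in atTop, C2 * ε m ≤ 1 / 2 := by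
      have : Tendsto (fun m => C2 * ε m) atTop (𝓝 (C2 * 0)) := hεlim.const_mul C2
      rw [mul_zero] at this
      exact this.eventually_le_const (by norm_num)
    filter_upwards [h1, h2, h3, h4] with m a1 a2 a3 a4
    exact ⟨a1, a2, a3, a4⟩
  -- the slice
  let S : Set (V d) := {x | x ∈ closure F ∧ ψ x = β ∧ ‖x - b‖ ≤ 1}
  have hSclosed : IsClosed S := by
    have e1 : IsClosed {x : V d | ψ x = β} := isClosed_eq hψc continuous_const
    have e2 : IsClosed {x : V d | ‖x - b‖ ≤ 1} :=
      isClosed_le (by fun_prop) continuous_const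
    exact isClosed_closure.inter (e1.inter e2)
  have hScomp : IsCompact S := by
    refine (isCompact_closedBall b 1).of_isClosed_subset hSclosed ?_
    intro x hx
    rw [Metric.mem_closedBall, dist_eq_norm]
    exact hx.2.2
  have hbS : b ∈ S := ⟨hb, rfl, by rw [sub_self, norm_zero]; norm_num⟩
  have hSR : ∀ x ∈ S, ‖x‖ ≤ R := by
    intro x hx
    have h1 : x = (x - b) + b := by abel
    calc ‖x‖ = ‖(x - b) + b‖ := by rw [← h1]
      _ ≤ ‖x - b‖ + ‖b‖ := norm_add_le _ _
      _ ≤ R := by rw [hR]; linarith [hx.2.2]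
  have key : ∀ᶠ m in atTop, ∃ x : V d, x ∈ closure F ∧ L m x = (ψ (L m x) / β) • x ∧
      ‖x - b‖ ≤ C1 * ε m := by
    filter_upwards [hgood] with m hm
    obtain ⟨g1, g2, g3, g4⟩ := hm
    have hLx : ∀ x, ψ x = β → L m x = β • b + E m x := by
      intro x hx
      change L m x = β • b + (L m x - ψ x • b)
      rw [hx]; abel
    have hden : ∀ x ∈ S, β ^ 2 / 2 ≤ ψ (L m x) ∧ ψ (L m x) = β ^ 2 + ψ (E m x) := by
      intro x hx
      have h1 : ψ (L m x) = β ^ 2 + ψ (E m x) := by
        rw [hLx x hx.2.1, map_add, map_smul, smul_eq_mul, ← hβdef, pow_two]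
      have h2 : |ψ (E m x)| ≤ β ^ 2 / 2 := by
        calc |ψ (E m x)| ≤ P * ‖E m x‖ := hP _
          _ ≤ P * (ε m * R) := by
              refine mul_le_mul_of_nonneg_left ?_ hP0
              exact (hEε m x).trans (mul_le_mul_of_nonneg_left (hSR x hx) (hε0 m))
          _ ≤ β ^ 2 / 2 := g2
      have h3 := neg_le_of_abs_le h2
      exact ⟨by rw [h1]; linarith, h1⟩
    let f : V d → V d := fun x => (β / ψ (L m x)) • L m x
    have hβ2 : 0 < β ^ 2 := by positivity
    have hfb : ∀ x ∈ S, ‖f x - b‖ ≤ C1 * ε m := by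
      intro x hx
      obtain ⟨d1, d2⟩ := hden x hx
      have hpos : 0 < ψ (L m x) := by linarith
      have h1 : f x - b = (ψ (L m x))⁻¹ • (β • E m x - ψ (E m x) • b) := by
        have h2 : β • L m x - ψ (L m x) • b = β • E m x - ψ (E m x) • b := by
          rw [d2, hLx x hx.2.1, smul_add, add_smul, smul_smul, pow_two]; abel
        change (β / ψ (L m x)) • L m x - b = _
        rw [← h2, smul_sub, smul_smul, smul_smul, inv_mul_cancel₀ hpos.ne', one_smul,
          div_eq_inv_mul]
      rw [h1, norm_smul, norm_inv, Real.norm_of_nonneg hpos.le]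
      have h3 : ‖β • E m x - ψ (E m x) • b‖ ≤ (β + P * ‖b‖) * R * ε m := by
        have hE := (hEε m x).trans (mul_le_mul_of_nonneg_left (hSR x hx) (hε0 m))
        calc ‖β • E m x - ψ (E m x) • b‖ ≤ ‖β • E m x‖ + ‖ψ (E m x) • b‖ := norm_sub_le _ _
          _ = β * ‖E m x‖ + |ψ (E m x)| * ‖b‖ := by
              rw [norm_smul, norm_smul, Real.norm_of_nonneg hβ.le, Real.norm_eq_abs]
          _ ≤ β * (ε m * R) + (P * (ε m * R)) * ‖b‖ := by
              refine add_le_add (mul_le_mul_of_nonneg_left hE hβ.le) ?_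
              refine mul_le_mul_of_nonneg_right ?_ hnb
              exact (hP _).trans (mul_le_mul_of_nonneg_left hE hP0)
          _ = (β + P * ‖b‖) * R * ε m := by ring
      have h4 : (ψ (L m x))⁻¹ ≤ 2 / β ^ 2 := by
        rw [inv_le_comm₀ hpos (by positivity)]
        have : (2 / β ^ 2)⁻¹ = β ^ 2 / 2 := by rw [inv_div]
        rw [this]; exact d1
      calc (ψ (L m x))⁻¹ * ‖β • E m x - ψ (E m x) • b‖
          ≤ (2 / β ^ 2) * ((β + P * ‖b‖) * R * ε m) :=
            mul_le_mul h4 h3 (norm_nonneg _) (by positivity)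
        _ = C1 * ε m := by rw [hC1]; ring
    have hmaps : ∀ x ∈ S, f x ∈ S := by
      intro x hx
      obtain ⟨d1, d2⟩ := hden x hx
      have hpos : 0 < ψ (L m x) := by linarith
      refine ⟨hF.cl_smul (hL m x hx.1) (by positivity), ?_, (hfb x hx).trans g3⟩
      change ψ ((β / ψ (L m x)) • L m x) = β
      rw [map_smul, smul_eq_mul, div_mul_cancel₀ _ hpos.ne']
    have hlip : ∀ x ∈ S, ∀ y ∈ S, ‖f x - f y‖ ≤ (1 / 2) * ‖x - y‖ := by
      intro x hx y hy
      obtain ⟨d1, d2⟩ := hden x hx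
      obtain ⟨d3, d4⟩ := hden y hy
      have hpx : 0 < ψ (L m x) := by linarith
      have hpy : 0 < ψ (L m y) := by linarith
      have h1 : f x - f y = (β * ((ψ (L m x))⁻¹ * (ψ (L m y))⁻¹)) •
          (β ^ 2 • E m (x - y) - (β * ψ (E m (x - y))) • b + ψ (E m y) • E m (x - y)
            - ψ (E m (x - y)) • E m y) := by
        have h2 : ψ (L m y) • L m x - ψ (L m x) • L m y
            = β ^ 2 • E m (x - y) - (β * ψ (E m (x - y))) • b + ψ (E m y) • E m (x - y)
            - ψ (E m (x - y)) • E m y := by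
          have e1 : ψ (E m (x - y)) = ψ (E m x) - ψ (E m y) := by
            rw [← hEsub m x y]; exact map_sub ψ _ _
          have e2 : E m (x - y) = E m x - E m y := (hEsub m x y).symm
          rw [d2, d4, hLx x hx.2.1, hLx y hy.2.1, e1, e2]
          generalize ψ (E m x) = a1
          generalize ψ (E m y) = a2
          generalize E m x = v1
          generalize E m y = v2
          ext i
          simp only [Pi.add_apply, Pi.sub_apply, Pi.smul_apply, smul_eq_mul]
          ring
        rw [← h2]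
        change (β / ψ (L m x)) • L m x - (β / ψ (L m y)) • L m y = _
        rw [smul_sub, smul_smul, smul_smul]
        congr 1
        · congr 1
          field_simp
        · congr 1
          field_simp
      have hz := hEε m (x - y)
      have hEy : ‖E m y‖ ≤ R := by
        calc ‖E m y‖ ≤ ε m * ‖y‖ := hEε m y
          _ ≤ 1 * R := mul_le_mul g1 (hSR y hy) (norm_nonneg _) zero_le_one
          _ = R := one_mul R
      have hψz : |ψ (E m (x - y))| ≤ P * (ε m * ‖x - y‖) :=
        (hP _).trans (mul_le_mul_of_nonneg_left hz hP0)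
      have hψy : |ψ (E m y)| ≤ P * R := (hP _).trans (mul_le_mul_of_nonneg_left hEy hP0)
      have h3 : ‖β ^ 2 • E m (x - y) - (β * ψ (E m (x - y))) • b + ψ (E m y) • E m (x - y)
            - ψ (E m (x - y)) • E m y‖
          ≤ (β * P * ‖b‖ + β ^ 2 + 2 * P * R) * (ε m * ‖x - y‖) := by
        have t1 : ‖β ^ 2 • E m (x - y)‖ ≤ β ^ 2 * (ε m * ‖x - y‖) := by
          rw [norm_smul, Real.norm_of_nonneg hβ2.le]
          exact mul_le_mul_of_nonneg_left hz hβ2.le
        have t2 : ‖(β * ψ (E m (x - y))) • b‖ ≤ β * (P * (ε m * ‖x - y‖)) * ‖b‖ := by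
          rw [norm_smul, norm_mul, Real.norm_of_nonneg hβ.le, Real.norm_eq_abs]
          exact mul_le_mul_of_nonneg_right (mul_le_mul_of_nonneg_left hψz hβ.le) hnb
        have t3 : ‖ψ (E m y) • E m (x - y)‖ ≤ (P * R) * (ε m * ‖x - y‖) := by
          rw [norm_smul, Real.norm_eq_abs]
          exact mul_le_mul hψy hz (norm_nonneg _) (by positivity)
        have t4 : ‖ψ (E m (x - y)) • E m y‖ ≤ (P * (ε m * ‖x - y‖)) * R := by
          rw [norm_smul, Real.norm_eq_abs]
          exact mul_le_mul hψz hEy (norm_nonneg _)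
            (mul_nonneg hP0 (mul_nonneg (hε0 m) (norm_nonneg _)))
        calc _ ≤ ‖β ^ 2 • E m (x - y) - (β * ψ (E m (x - y))) • b + ψ (E m y) • E m (x - y)‖
              + ‖ψ (E m (x - y)) • E m y‖ := norm_sub_le _ _
          _ ≤ (‖β ^ 2 • E m (x - y) - (β * ψ (E m (x - y))) • b‖ + ‖ψ (E m y) • E m (x - y)‖)
              + ‖ψ (E m (x - y)) • E m y‖ := by gcongr; exact norm_add_le _ _
          _ ≤ ((‖β ^ 2 • E m (x - y)‖ + ‖(β * ψ (E m (x - y))) • b‖)
              + ‖ψ (E m y) • E m (x - y)‖) + ‖ψ (E m (x - y)) • E m y‖ := by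
                gcongr; exact norm_sub_le _ _
          _ ≤ ((β ^ 2 * (ε m * ‖x - y‖) + β * (P * (ε m * ‖x - y‖)) * ‖b‖)
              + (P * R) * (ε m * ‖x - y‖)) + (P * (ε m * ‖x - y‖)) * R := by
                linarith
          _ = (β * P * ‖b‖ + β ^ 2 + 2 * P * R) * (ε m * ‖x - y‖) := by ring
      rw [h1, norm_smul]
      have h5 : ∀ t : ℝ, β ^ 2 / 2 ≤ t → t⁻¹ ≤ 2 / β ^ 2 := by
        intro t ht
        have htp : 0 < t := by linarith
        rw [inv_le_comm₀ htp (by positivity)]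
        have : (2 / β ^ 2)⁻¹ = β ^ 2 / 2 := by rw [inv_div]
        rw [this]; exact ht
      have h6 : ‖β * ((ψ (L m x))⁻¹ * (ψ (L m y))⁻¹)‖ ≤ β * (4 / β ^ 4) := by
        rw [Real.norm_of_nonneg (by positivity)]
        refine mul_le_mul_of_nonneg_left ?_ hβ.le
        calc (ψ (L m x))⁻¹ * (ψ (L m y))⁻¹ ≤ (2 / β ^ 2) * (2 / β ^ 2) :=
              mul_le_mul (h5 _ d1) (h5 _ d3) (by positivity) (by positivity)
          _ = 4 / β ^ 4 := by field_simp; norm_num
      calc _ ≤ (β * (4 / β ^ 4)) * ((β * P * ‖b‖ + β ^ 2 + 2 * P * R) * (ε m * ‖x - y‖)) :=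
            mul_le_mul h6 h3 (norm_nonneg _) (by positivity)
        _ = (C2 * ε m) * ‖x - y‖ := by rw [hC2]; ring
        _ ≤ (1 / 2) * ‖x - y‖ := mul_le_mul_of_nonneg_right g4 (norm_nonneg _)
    -- fixed point by compactness
    have hfc : ContinuousOn (fun x => ‖f x - x‖) S := by
      have h1 : ContinuousOn f S := by
        have h0 : ContinuousOn (fun x => β / ψ (L m x)) S := by
          refine ContinuousOn.div continuousOn_const (hψc.comp (hLc m)).continuousOn ?_
          intro x hx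
          have := (hden x hx).1
          change ψ (L m x) ≠ 0
          intro h0
          linarith
        have h00 : ContinuousOn (fun x : V d => L m x) S := (hLc m).continuousOn
        exact fun x hx => (h0 x hx).smul (h00 x hx)
      exact (h1.sub continuousOn_id).norm
    obtain ⟨x0, hx0, hmin⟩ := hScomp.exists_isMinOn ⟨b, hbS⟩ hfc
    have h1 : ‖f x0 - x0‖ ≤ ‖f (f x0) - f x0‖ := hmin (hmaps x0 hx0)
    have h2 := hlip (f x0) (hmaps x0 hx0) x0 hx0
    have h3 : ‖f x0 - x0‖ = 0 := by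
      have := norm_nonneg (f x0 - x0)
      linarith
    have h4 : f x0 = x0 := sub_eq_zero.mp (norm_eq_zero.mp h3)
    refine ⟨x0, hx0.1, ?_, ?_⟩
    · have hpos : 0 < ψ (L m x0) := by have := (hden x0 hx0).1; linarith
      have h5 : (β / ψ (L m x0)) • L m x0 = x0 := h4
      calc L m x0 = (ψ (L m x0) / β) • ((β / ψ (L m x0)) • L m x0) := by
            rw [smul_smul, div_mul_div_cancel₀ hβ.ne', div_self hpos.ne', one_smul]
        _ = (ψ (L m x0) / β) • x0 := by rw [h5]
    · have := hfb x0 hx0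
      rwa [h4] at this
  obtain ⟨x, hx⟩ := key.choice
  have hxlim : Tendsto x atTop (𝓝 b) := by
    rw [tendsto_iff_norm_sub_tendsto_zero]
    have h1 : Tendsto (fun m => C1 * ε m) atTop (𝓝 0) := by
      have := hεlim.const_mul C1
      rwa [mul_zero] at this
    refine squeeze_zero' (Eventually.of_forall fun m => norm_nonneg _) ?_ h1
    filter_upwards [hx] with m hm
    exact hm.2.2
  refine ⟨x, fun m => ψ (L m (x m)) / β, ?_, hxlim, ?_⟩
  · filter_upwards [hx] with m hm
    exact ⟨hm.1, hm.2.1⟩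
  · have h1 : Tendsto (fun m => E m (x m)) atTop (𝓝 0) := by
      rw [tendsto_zero_iff_norm_tendsto_zero]
      have h2 : Tendsto (fun m => ε m * ‖x m‖) atTop (𝓝 (0 * ‖b‖)) := hεlim.mul hxlim.norm
      rw [zero_mul] at h2
      exact squeeze_zero (fun m => norm_nonneg _) (fun m => hEε m (x m)) h2
    have h2 : Tendsto (fun m => L m (x m)) atTop (𝓝 (β • b)) := by
      have h3 : ∀ m, L m (x m) = ψ (x m) • b + E m (x m) := by
        intro m
        change L m (x m) = ψ (x m) • b + (L m (x m) - ψ (x m) • b)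
        abel
      have h4 : Tendsto (fun m => ψ (x m) • b + E m (x m)) atTop (𝓝 (ψ b • b + 0)) :=
        (((hψc.tendsto b).comp hxlim).smul_const b).add h1
      rw [add_zero] at h4
      simpa only [h3] using h4
    have h3 : Tendsto (fun m => ψ (L m (x m)) / β) atTop (𝓝 (ψ (β • b) / β)) :=
      ((hψc.tendsto _).comp h2).div_const β
    have h4 : ψ (β • b) / β = ψ b := by
      rw [map_smul, smul_eq_mul, ← hβdef, mul_div_assoc, div_self hβ.ne', mul_one]
    rwa [h4] at h3

end Pool.Agent.PFB.H87
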