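import Pool.Agent.PFB.StmtsG

set_option autoImplicit false

open Matrix Filter Topology

namespace Pool.Agent.PFB.H87

open Pool.Agent.PFS

/-- elements below a multiple of a boundary ray of a strictly convex cone are multiples of it -/
theorem below_ray {d : ℕ} {F : Set (V d)} (hF : PCone F) (hS : Strict F) {b y : V d} {M : ℝ}
    (hM : 0 < M) (hb : b ∈ closure F) (hbF : b ∉ F) (hb0 : b ≠ 0) (hy : y ∈ closure F)
    (hyb : M • b - y ∈ closure F) : ∃ c : ℝ, 0 ≤ c ∧ y = c • b := by
  have hdep : ¬ LinearIndependent ℝ ![y, M • b - y] := by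
    intro hli
    have h1 := hS y hy (M • b - y) hyb hli
    have h2 : y + (M • b - y) = M • b := by abel
    rw [h2] at h1
    exact hbF ((hF.smul_iff hM).mp h1)
  rw [LinearIndependent.pair_iff] at hdep
  push Not at hdep
  obtain ⟨s, t, hst, hne⟩ := hdep
  have h1 : (s - t) • y = (-(t * M)) • b := by
    have h2 : (s - t) • y + (t * M) • b = 0 := by
      rw [← hst, sub_smul, smul_sub, smul_smul]; abel
    rw [neg_smul]
    exact eq_neg_of_add_eq_zero_left h2
  by_cases hst' : s = t
  · exfalso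
    rw [hst', sub_self, zero_smul] at h1
    have h3 : -(t * M) = 0 ∨ b = 0 := smul_eq_zero.mp h1.symm
    rcases h3 with h3 | h3
    · have ht : t = 0 := by
        have : t * M = 0 := by linarith
        rcases mul_eq_zero.mp this with h | h
        · exact h
        · exact absurd h hM.ne'
      exact hne (by rw [hst', ht]) ht
    · exact hb0 h3
  · have hsub : s - t ≠ 0 := sub_ne_zero.mpr hst'
    have hy' : y = ((s - t)⁻¹ * (-(t * M))) • b := by
      rw [← smul_smul, ← h1, smul_smul, inv_mul_cancel₀ hsub, one_smul]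
    set c := (s - t)⁻¹ * (-(t * M)) with hc
    by_cases hc0 : 0 ≤ c
    · exact ⟨c, hc0, hy'⟩
    · exfalso
      push Not at hc0
      have hneg : -y ∈ closure F := by
        rw [hy', ← neg_smul]
        exact hF.cl_smul hb (by linarith)
      have hy0 := hF.salient y hy hneg
      rw [hy0] at hy'
      rcases smul_eq_zero.mp hy'.symm with h | h
      · exact absurd h (ne_of_lt hc0)
      · exact hb0 h

theorem rko : RkoStmt := by
  intro d F hF hS H r f b hH hr hf hb hbF hb0 hlim
  -- the maps preserve the closed cone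
  have hcont : ∀ m, Continuous (fun x : V d => H m x) := fun m =>
    (H m).toLinearMap.continuous_of_finiteDimensional
  have hcl : ∀ m, ∀ x ∈ closure F, r m • H m x ∈ closure F := by
    intro m x hx
    refine hF.cl_smul ?_ (hr m).le
    have h1 := image_closure_subset_closure_image (hcont m) (s := F) ⟨x, hx, rfl⟩
    refine closure_mono ?_ h1
    rintro _ ⟨z, hz, rfl⟩
    exact (hH m z).mpr hz
  -- two-sided bounds
  have habs : ∀ v : V d, ∃ M : ℝ, 0 < M ∧ M • f - v ∈ closure F ∧ M • f + v ∈ closure F := by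
    intro v
    obtain ⟨M1, hM1, h1⟩ := hF.absorb hf v
    obtain ⟨M2, hM2, h2⟩ := hF.absorb hf (-v)
    refine ⟨M1 + M2, by linarith, ?_, ?_⟩
    · have h3 := hF.cl_add (subset_closure h1) (hF.cl_smul (subset_closure hf) hM2.le)
      have h4 : M1 • f - v + M2 • f = (M1 + M2) • f - v := by rw [add_smul]; abel
      rwa [h4] at h3
    · have h3 := hF.cl_add (subset_closure h2) (hF.cl_smul (subset_closure hf) hM1.le)
      have h4 : M2 • f - -v + M1 • f = (M1 + M2) • f + v := by rw [add_smul]; abel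
      rwa [h4] at h3
  obtain ⟨B, hB, hnorm⟩ := hF.normal
  obtain ⟨Cf, hCf⟩ : ∃ Cf : ℝ, ∀ m, ‖r m • H m f‖ ≤ Cf := by
    obtain ⟨Cf, hCf⟩ := hlim.norm.bddAbove_range
    exact ⟨Cf, fun m => hCf ⟨m, rfl⟩⟩
  have hbd : ∀ v : V d, ∃ D : ℝ, ∀ m, ‖r m • H m v‖ ≤ D := by
    intro v
    obtain ⟨M, hM, h1, h2⟩ := habs v
    refine ⟨B * (2 * M * Cf) + M * Cf, fun m => ?_⟩
    have h3 := hcl m _ h2
    have h4 := hcl m _ h1
    have e3 : r m • H m (M • f + v) = M • (r m • H m f) + r m • H m v := by
      rw [map_add, map_smul, smul_add, smul_comm]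
    have e4 : r m • H m (M • f - v) = M • (r m • H m f) - r m • H m v := by
      rw [map_sub, map_smul, smul_sub, smul_comm]
    rw [e3] at h3
    rw [e4] at h4
    set a := r m • H m f with ha
    set z := r m • H m v with hz
    have h5 := hnorm (M • a + z) ((2 * M) • a) h3 (by
      have : (2 * M) • a - (M • a + z) = M • a - z := by rw [two_mul, add_smul]; abel
      rw [this]; exact h4)
    have h6 : ‖(2 * M) • a‖ ≤ 2 * M * Cf := by
      rw [norm_smul, Real.norm_of_nonneg (by linarith)]
      exact mul_le_mul_of_nonneg_left (hCf m) (by linarith)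
    have h7 : ‖M • a‖ ≤ M * Cf := by
      rw [norm_smul, Real.norm_of_nonneg hM.le]
      exact mul_le_mul_of_nonneg_left (hCf m) hM.le
    have h8 : z = (M • a + z) - M • a := by abel
    calc ‖z‖ = ‖(M • a + z) - M • a‖ := by rw [← h8]
      _ ≤ ‖M • a + z‖ + ‖M • a‖ := norm_sub_le _ _
      _ ≤ B * (2 * M * Cf) + M * Cf := add_le_add
          (h5.trans (mul_le_mul_of_nonneg_left h6 hB.le)) h7
  -- convergent subsequence on the basis
  choose D hD using fun i : Fin d => hbd (Pi.single i (1 : ℝ))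
  let y : ℕ → (Fin d → V d) := fun m i => r m • H m (Pi.single i (1 : ℝ))
  have hyb : Bornology.IsBounded (Set.range y) := by
    rw [isBounded_iff_forall_norm_le]
    refine ⟨∑ i, |D i|, ?_⟩
    rintro _ ⟨m, rfl⟩
    rw [pi_norm_le_iff_of_nonneg (Finset.sum_nonneg fun i _ => abs_nonneg _)]
    intro i
    exact (hD i m).trans ((le_abs_self _).trans
      (Finset.single_le_sum (f := fun i => |D i|) (fun i _ => abs_nonneg _) (Finset.mem_univ i)))
  obtain ⟨A, _, φ, hφ, hA⟩ := tendsto_subseq_of_bounded hyb (x := y) fun m => ⟨m, rfl⟩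
  have hAi : ∀ i, Tendsto (fun m => r (φ m) • H (φ m) (Pi.single i (1 : ℝ))) atTop (𝓝 (A i)) := by
    intro i
    exact (tendsto_pi_nhds.mp hA) i
  let T : V d →ₗ[ℝ] V d :=
    { toFun := fun x => ∑ i, x i • A i
      map_add' := by
        intro x x'
        simp only [Pi.add_apply, add_smul, Finset.sum_add_distrib]
      map_smul' := by
        intro c x
        simp only [Pi.smul_apply, smul_eq_mul, RingHom.id_apply, Finset.smul_sum, smul_smul] }
  have hT : ∀ x : V d, Tendsto (fun m => r (φ m) • H (φ m) x) atTop (𝓝 (T x)) := by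
    intro x
    have h1 : ∀ m, r (φ m) • H (φ m) x
        = ∑ i, x i • (r (φ m) • H (φ m) (Pi.single i (1 : ℝ))) := by
      intro m
      have hx : x = ∑ i, x i • (Pi.single i (1 : ℝ) : V d) := by
        ext j
        simp [Finset.sum_apply, Pi.single_apply]
      conv_lhs => rw [hx]
      rw [map_sum, Finset.smul_sum]
      refine Finset.sum_congr rfl fun i _ => ?_
      rw [map_smul, smul_comm]
    simp only [h1]
    change Tendsto _ atTop (𝓝 (∑ i, x i • A i))
    exact tendsto_finsetSum _ fun i _ => (hAi i).const_smul (x i)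
  have hTf : T f = b := tendsto_nhds_unique (hT f) (hlim.comp hφ.tendsto_atTop)
  have hTcl : ∀ x ∈ closure F, T x ∈ closure F := fun x hx =>
    isClosed_closure.mem_of_tendsto (hT x) (Eventually.of_forall fun m => hcl _ x hx)
  have hray : ∀ x ∈ closure F, ∃ c : ℝ, 0 ≤ c ∧ T x = c • b := by
    intro x hx
    obtain ⟨M, hM, h1, _⟩ := habs x
    have h2 := hTcl _ h1
    rw [map_sub, map_smul, hTf] at h2
    exact below_ray hF hS hM hb hbF hb0 (hTcl x hx) h2
  -- the functional
  obtain ⟨k, hk⟩ : ∃ k, b k ≠ 0 := by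
    by_contra hcon
    push Not at hcon
    exact hb0 (funext hcon)
  let ψ : V d →ₗ[ℝ] ℝ := (b k)⁻¹ • ((LinearMap.proj k : V d →ₗ[ℝ] ℝ) ∘ₗ T)
  have hψ : ∀ x, ψ x = (b k)⁻¹ * (T x) k := fun x => rfl
  have hψc : ∀ x (c : ℝ), T x = c • b → ψ x = c := by
    intro x c hc
    rw [hψ, hc, Pi.smul_apply, smul_eq_mul, mul_comm c, ← mul_assoc, inv_mul_cancel₀ hk, one_mul]
  have hψcl : ∀ x ∈ closure F, 0 ≤ ψ x ∧ T x = ψ x • b := by
    intro x hx
    obtain ⟨c, hc, h1⟩ := hray x hx
    have h2 := hψc x c h1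
    exact ⟨by rw [h2]; exact hc, by rw [h2]; exact h1⟩
  have hψall : ∀ x, T x = ψ x • b := by
    intro x
    obtain ⟨M, hM, _, h2⟩ := habs x
    have h3 := (hψcl _ h2).2
    rw [map_add, map_add, map_smul, map_smul, hTf, hψc f 1 (by rw [hTf, one_smul]),
      smul_eq_mul, mul_one, add_smul] at h3
    exact add_left_cancel h3
  refine ⟨φ, ψ, hφ, fun x hx => (hψcl x hx).1, ?_, ?_⟩
  · intro x hx
    obtain ⟨M, hM, h1⟩ := hF.absorb hx f
    have h2 := (hψcl _ (subset_closure h1)).1
    rw [map_sub, map_smul, hψc f 1 (by rw [hTf, one_smul]), smul_eq_mul] at h2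
    by_contra hcon
    push Not at hcon
    nlinarith
  · intro x
    rw [← hψall x]
    exact hT x

end Pool.Agent.PFB.H87
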